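import Pool.Agent.Helper65.BR.PGoals
import Pool.Agent.Helper12.BR.WORD
import Pool.Agent.Helper96.BR.PAR

/-!
# Packet BR-PWRD: the supersteps on numbers and on words
-/

namespace Pool.Agent.Helper64.BR

open Pool.Agent.Helper65.LinSpace Pool.Agent.Helper78.Mpc Pool.Agent.Helper28.Ram
open Pool.Agent.Helper65.OH (letW)
open Pool.Agent.Helper65.BR
open Pool.Agent.Helper12.BR (lwN_codeO bvalN_num catN_zero_left catN_zero_right sdN_zero
  length_letW head_of_acc)
open Pool.Agent.Helper96.BR (fnN_lt)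

theorem num_lt_pow {S : ℕ} {w : List Bool} (h : w.length ≤ S) : num w < 2 ^ (S + 1) := by
  have h1 : num w < 2 ^ (Nat.log 2 (num w) + 1) := Nat.lt_pow_succ_log_self (by norm_num) _
  rw [log_num] at h1
  exact h1.trans_le (Nat.pow_le_pow_right (by norm_num) (by omega))

section

variable (P : Prp)

/-- The local states, `f` giving the values at the start of the superstep. -/
def Lf (f : ℕ → ℕ) (x : ℕ) : ℕ → ℕ
  | 0 => P.iniN x (f (x % 2 ^ (P.Z + 1)) % 2 ^ (P.H + 1))
  | j + 1 => P.nxN (Lf f x j) (f (P.rgN (Lf f x j) % 2 ^ (P.Z + 1)) % 2 ^ (P.H + 1))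

/-- The digests. -/
def td (f : ℕ → ℕ) (x e : ℕ) : ℕ :=
  f (ifz e x (P.rgN (Lf P f x (e - 1))) % 2 ^ (P.Z + 1)) % 2 ^ (P.H + 1)

theorem td_lt (f : ℕ → ℕ) (x e : ℕ) : td P f x e < 2 ^ (P.H + 1) :=
  Nat.mod_lt _ (Nat.two_pow_pos _)

theorem lcN_tab (f : ℕ → ℕ) (x e : ℕ) : ∀ j < e,
    P.lcN x (tab (2 ^ (P.H + 1)) e (td P f x)) j = Lf P f x j := by
  intro j
  induction j with
  | zero =>
    intro hj
    show P.iniN x (dig (2 ^ (P.H + 1)) (tab (2 ^ (P.H + 1)) e (td P f x)) 0) = _
    rw [dig_tab (fun i _ => td_lt P f x i) hj]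
    rfl
  | succ j ih =>
    intro hj
    show P.nxN (P.lcN x (tab (2 ^ (P.H + 1)) e (td P f x)) j)
      (dig (2 ^ (P.H + 1)) (tab (2 ^ (P.H + 1)) e (td P f x)) (1 + j)) = _
    rw [ih (by omega), dig_tab (fun i _ => td_lt P f x i) (by omega)]
    have h1 : td P f x (1 + j) =
        f (P.rgN (Lf P f x j) % 2 ^ (P.Z + 1)) % 2 ^ (P.H + 1) := by
      unfold td
      rw [show 1 + j - 1 = j by omega, ifz_ne (by omega)]
    rw [h1]
    rfl

theorem Zt_eq (f : ℕ → ℕ) (x e : ℕ) :
    P.rt.Zt f x e = tab (2 ^ (P.H + 1)) e (td P f x) := by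
  induction e with
  | zero => rfl
  | succ e ih =>
    show P.rt.Zt f x e + 2 ^ ((P.H + 1) * e) *
      (f (ifz e x (P.rgN (P.lcN x (P.rt.Zt f x e) (e - 1))) % 2 ^ (P.Z + 1)) %
        2 ^ (P.H + 1)) = _
    rw [ih]
    have h1 : f (ifz e x (P.rgN (P.lcN x (tab (2 ^ (P.H + 1)) e (td P f x)) (e - 1))) %
        2 ^ (P.Z + 1)) % 2 ^ (P.H + 1) = td P f x e := by
      rcases e with _ | e
      · rfl
      · rw [show e + 1 - 1 = e by omega, lcN_tab P f x (e + 1) e (by omega)]
        rfl
    rw [h1, tab_succ, pow_mul, mul_comm (td P f x e)]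

theorem T_succ (hR : P.R + 1 ≤ P.G * P.E) (k x : ℕ) :
    P.rt.T (k + 1) x = P.outN (Lf P (P.rt.T k) x P.R) := by
  show P.outN (P.lcN x (P.rt.Zt (P.rt.T k) x (P.G * P.E)) P.R) = _
  rw [Zt_eq, lcN_tab P _ _ _ _ (by omega)]

theorem T_lt (k x : ℕ) (hR : P.R + 1 ≤ P.G * P.E) : P.rt.T k x < 2 ^ (P.H + 1) := by
  rcases k with _ | k
  · exact Nat.one_lt_two_pow (by omega)
  · rw [T_succ P hR]
    exact fnN_lt _ _ _ _ _ _

theorem rgN_lt (u : ℕ) : P.rgN u < 2 ^ (P.Z + 1) := fnN_lt _ _ _ _ _ _

theorem Lf_zero (hR : P.R + 1 ≤ P.G * P.E) (k : ℕ) {x : ℕ} (hx : x < 2 ^ (P.Z + 1)) :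
    Lf P (P.rt.T k) x 0 = P.iniN x (P.rt.T k x) := by
  show P.iniN x (P.rt.T k (x % 2 ^ (P.Z + 1)) % 2 ^ (P.H + 1)) = _
  rw [Nat.mod_eq_of_lt hx, Nat.mod_eq_of_lt (T_lt P k x hR)]

theorem Lf_succ (hR : P.R + 1 ≤ P.G * P.E) (k x j : ℕ) :
    Lf P (P.rt.T k) x (j + 1) = P.nxN (Lf P (P.rt.T k) x j)
      (P.rt.T k (P.rgN (Lf P (P.rt.T k) x j))) := by
  show P.nxN (Lf P (P.rt.T k) x j) (P.rt.T k (P.rgN (Lf P (P.rt.T k) x j) % 2 ^ (P.Z + 1)) %
    2 ^ (P.H + 1)) = _
  rw [Nat.mod_eq_of_lt (rgN_lt P _), Nat.mod_eq_of_lt (T_lt P k _ hR)]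

end

section

variable {A : PM} {P : Prp} {w y p : List Bool}

theorem inN_zero (u : ℕ) : P.inN u 0 = 0 := by
  unfold Prp.inN
  rw [catN_zero_right, catN_zero_right, catN_zero_right]

theorem nxN_zero_right (u : ℕ) : P.nxN u 0 = 0 := by
  unfold Prp.nxN
  rw [inN_zero, fnN_zero]
  unfold ifz
  split_ifs <;> rfl

theorem nxN_zero_left (v : ℕ) : P.nxN 0 v = 0 := rfl

theorem iniN_zero (x : ℕ) : P.iniN x 0 = 0 := by
  unfold Prp.iniN
  rw [catN_zero_right, catN_zero_right, fnN_zero]

theorem ini_eq (hC : CodP A P) (hp : P.p = num p) (hpl : p.length ≤ P.Z) {x c : List Bool}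
    (hx : x.length ≤ P.Z) (hc : c.length ≤ P.H) : P.iniN (num x) (num c) =
      if (A.init (sd p ++ (sd x ++ c))).length ≤ P.S then
        num (A.init (sd p ++ (sd x ++ c))) else 0 := by
  unfold Prp.iniN
  rw [hp, sdN_num, sdN_num, catN_num, catN_num]
  refine hC.eI _ ?_
  simp only [List.length_append, length_sd]
  omega

theorem nx_eq (hC : CodP A P) (hx : P.x = num w) (hy : P.y = num y) {u z : List Bool}
    (hu : u.length ≤ P.S) (ha : (A.addr u).length ≤ P.S) (hb : (A.reg u).length ≤ P.Z)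
    (hz : z.length ≤ P.H) : P.nxN (num u) (num z) =
      if (A.next (sd u ++ (letW w[bval (A.addr u)]? ++
        (letW y[bval (A.addr u)]? ++ z)))).length ≤ P.S then
        num (A.next (sd u ++ (letW w[bval (A.addr u)]? ++
        (letW y[bval (A.addr u)]? ++ z)))) else 0 := by
  have ha' : P.adN (num u) = num (A.addr u) := by
    unfold Prp.adN
    rw [hC.eA u hu, if_pos ha]
  have hb' : P.rgN (num u) = num (A.reg u) := by
    unfold Prp.rgN
    rw [hC.eR u hu, if_pos hb]
  have h1 : P.inN (num u) (num z) =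
      num (sd u ++ (letW w[bval (A.addr u)]? ++ (letW y[bval (A.addr u)]? ++ z))) := by
    unfold Prp.inN
    rw [ha', bvalN_num, hx, hy, letN_num, letN_num, lwN_codeO, lwN_codeO,
      sdN_num, catN_num, catN_num, catN_num]
  unfold Prp.nxN
  rw [ha', ifz_ne (num_pos _).ne', hb', ifz_ne (num_pos _).ne', h1]
  refine hC.eN _ ?_
  simp only [List.length_append, length_sd, length_letW]
  omega

theorem out_eq (hC : CodP A P) {u : List Bool} (hu : u.length ≤ P.S) :
    P.outN (num u) = if (A.out u).length ≤ P.H then num (A.out u) else 0 := hC.eO u hu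

/-- Soundness of the values. -/
theorem val_snd (hC : CodP A P) (hx : P.x = num w) (hy : P.y = num y) (hp : P.p = num p)
    (hpl : p.length ≤ P.Z) (hR : P.R + 1 ≤ P.G * P.E) (k : ℕ) : ∀ x : List Bool,
    x.length ≤ P.Z → P.rt.T k (num x) = 0 ∨
      (P.rt.T k (num x) = num (A.val w y p P.R k x) ∧ (A.val w y p P.R k x).length ≤ P.H) := by
  induction k with
  | zero => exact fun x _ => Or.inr ⟨rfl, Nat.zero_le _⟩
  | succ k ih =>
    intro x hxl
    have key : ∀ j, Lf P (P.rt.T k) (num x) j = 0 ∨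
        (Lf P (P.rt.T k) (num x) j = num (A.loc w y p (A.val w y p P.R k) x j) ∧
          (A.loc w y p (A.val w y p P.R k) x j).length ≤ P.S) := by
      intro j
      induction j with
      | zero =>
        rw [Lf_zero P hR k (num_lt_pow hxl)]
        rcases ih x hxl with h | ⟨h1, h2⟩
        · left
          rw [h, iniN_zero]
        · rw [h1, ini_eq hC hp hpl hxl h2]
          by_cases h3 : (A.init (sd p ++ (sd x ++ A.val w y p P.R k x))).length ≤ P.S
          · right
            rw [if_pos h3]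
            exact ⟨rfl, h3⟩
          · left
            rw [if_neg h3]
      | succ j ihj =>
        rw [Lf_succ P hR]
        rcases ihj with h | ⟨h1, h2⟩
        · left
          rw [h, nxN_zero_left]
        · rw [h1]
          set u := A.loc w y p (A.val w y p P.R k) x j with hu
          by_cases h0 : P.nxN (num u) (P.rt.T k (P.rgN (num u))) = 0
          · exact Or.inl h0
          right
          have ha0 : P.adN (num u) ≠ 0 := by
            intro h
            apply h0
            unfold Prp.nxN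
            rw [h, ifz_zero]
          have hb0 : P.rgN (num u) ≠ 0 := by
            intro h
            apply h0
            unfold Prp.nxN
            rw [ifz_ne ha0, h, ifz_zero]
          have ha : (A.addr u).length ≤ P.S := by
            by_contra hcon
            apply ha0
            unfold Prp.adN
            rw [hC.eA u h2, if_neg hcon]
          have hb : (A.reg u).length ≤ P.Z := by
            by_contra hcon
            apply hb0
            unfold Prp.rgN
            rw [hC.eR u h2, if_neg hcon]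
          have hb' : P.rgN (num u) = num (A.reg u) := by
            unfold Prp.rgN
            rw [hC.eR u h2, if_pos hb]
          rw [hb'] at h0 ⊢
          rcases ih _ hb with h4 | ⟨h4, h5⟩
          · rw [h4, nxN_zero_right] at h0
            exact absurd rfl h0
          · rw [h4] at h0 ⊢
            rw [nx_eq hC hx hy h2 ha hb h5] at h0 ⊢
            by_cases h6 : (A.next (sd u ++ (letW w[bval (A.addr u)]? ++
              (letW y[bval (A.addr u)]? ++ A.val w y p P.R k (A.reg u))))).length ≤ P.S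
            · rw [if_pos h6]
              exact ⟨rfl, h6⟩
            · rw [if_neg h6] at h0
              exact absurd rfl h0
    rw [T_succ P hR]
    rcases key P.R with h | ⟨h1, h2⟩
    · left
      rw [h]
      exact fnN_zero _
    · rw [h1, out_eq hC h2]
      by_cases h3 : (A.out (A.loc w y p (A.val w y p P.R k) x P.R)).length ≤ P.H
      · right
        rw [if_pos h3]
        exact ⟨rfl, h3⟩
      · left
        rw [if_neg h3]

/-- Completeness of the values. -/
theorem val_cmp (hC : CodP A P) (hx : P.x = num w) (hy : P.y = num y) (hp : P.p = num p)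
    (hR : P.R + 1 ≤ P.G * P.E) {K : ℕ} (hF : A.Fits w y p P.R K P.S P.Z P.H) (k : ℕ)
    (hk : k ≤ K) : ∀ x : List Bool, x.length ≤ P.Z →
      P.rt.T k (num x) = num (A.val w y p P.R k x) := by
  induction k with
  | zero => exact fun x _ => rfl
  | succ k ih =>
    intro x hxl
    obtain ⟨hpl, hF⟩ := hF
    have ih' := ih (by omega)
    obtain ⟨hv, hl⟩ := hF x hxl
    have key : ∀ j ≤ P.R,
        Lf P (P.rt.T k) (num x) j = num (A.loc w y p (A.val w y p P.R k) x j) := by
      intro j
      induction j with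
      | zero =>
        intro hj
        have h3 : (A.init (sd p ++ (sd x ++ A.val w y p P.R k x))).length ≤ P.S :=
          (hl k (by omega) 0 hj).1
        rw [Lf_zero P hR k (num_lt_pow hxl), ih' x hxl,
          ini_eq hC hp hpl hxl (hv k (by omega)), if_pos h3]
        rfl
      | succ j ihj =>
        intro hj
        obtain ⟨h1, h2, h3⟩ := hl k (by omega) j (by omega)
        have h4 := (hl k (by omega) (j + 1) hj).1
        rw [Lf_succ P hR, ihj (by omega)]
        have hb' : P.rgN (num (A.loc w y p (A.val w y p P.R k) x j)) =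
            num (A.reg (A.loc w y p (A.val w y p P.R k) x j)) := by
          unfold Prp.rgN
          rw [hC.eR _ h1, if_pos h3]
        rw [hb', ih' _ h3, nx_eq hC hx hy h1 h2 h3 ((hF _ h3).1 k (by omega))]
        exact if_pos h4
    have h5 : (A.out (A.loc w y p (A.val w y p P.R k) x P.R)).length ≤ P.H :=
      hv (k + 1) hk
    rw [T_succ P hR, key P.R le_rfl, out_eq hC (hl k (by omega) P.R le_rfl).1, if_pos h5]
    rfl

end

/-- Packet BR-PWRD. -/
theorem PWRD : PWRD_stmt where
  snd := by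
    intro A P w y p hC hx hy hp hpl _ hR hacc
    have hroot : P.rt.root = num p := by
      show P.p % 2 ^ (P.Z + 1) = _
      rw [hp]
      exact Nat.mod_eq_of_lt (num_lt_pow hpl)
    rw [hroot] at hacc
    rcases val_snd hC hx hy hp hpl hR P.K p hpl with h | ⟨h, -⟩
    · rw [h] at hacc
      exact absurd rfl hacc
    · rw [h] at hacc
      exact head_of_acc hacc
  cmp := by
    intro A P w y p hC hx hy hp _ hR hF hacc
    have hroot : P.rt.root = num p := by
      show P.p % 2 ^ (P.Z + 1) = _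
      rw [hp]
      exact Nat.mod_eq_of_lt (num_lt_pow hF.1)
    rw [hroot, val_cmp hC hx hy hp hR hF P.K le_rfl p hF.1]
    have h1 : accN (num (A.val w y p P.R P.K p)) = 1 := (accN_num _).2 hacc
    rw [h1]
    exact one_ne_zero

end Pool.Agent.Helper64.BR
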